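import Mathlib
import Pool.Agent.Y372.PC.Breg
import Pool.Agent.Y372.PC.Asym

/-!
# An upper bound for the number of prime circles

`N m` is the number of prime circles of order `2m`, counted up to rotation and reflection. We show
that for every `ε > 0` and all large `m`,
`N m ≤ ((1 + ε) * 2m / (e * log (2m))) ^ (2m)`.
-/

set_option autoImplicit false

open Finset Filter Topology
open Pool.Agent.Y372.PC

namespace Pool.Agent.Results.MP_ec65ab_co.UpperBound

/-- `a` is a prime circle of order `2m`: a cyclic arrangement, indexed by `ZMod (2m)`, of the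
integers `1, …, 2m`, each used exactly once, with prime sums of adjacent entries. -/
structure IsPrimeCircle (m : ℕ) (a : ZMod (2 * m) → ℕ) : Prop where
  bij : Set.BijOn a Set.univ (Set.Icc 1 (2 * m))
  prime : ∀ i, (a i + a (i + 1)).Prime

/-- The undirected cycle of a cyclic arrangement, that is, the set of its edges
`{a i, a (i + 1)}`. -/
def edges {m : ℕ} (a : ZMod (2 * m) → ℕ) : Set (Sym2 ℕ) :=
  Set.range fun i => s(a i, a (i + 1))

/-- The number of prime circles of order `2m`, counted as undirected cycles, that is, up to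
rotation and reflection. -/
noncomputable def N (m : ℕ) : ℕ :=
  Set.ncard {E : Set (Sym2 ℕ) | ∃ a : ZMod (2 * m) → ℕ, IsPrimeCircle m a ∧ E = edges a}

/-- the positions allowed for the successor of `x + 1` -/
def S (n : ℕ) (x : Fin n) : Finset (Fin n) :=
  univ.filter fun y => ((x : ℕ) + 1 + ((y : ℕ) + 1)).Prime

/-- the edge set of a permutation -/
def F (n : ℕ) (c : Equiv.Perm (Fin n)) : Set (Sym2 ℕ) :=
  Set.range fun x : Fin n => s((x : ℕ) + 1, (c x : ℕ) + 1)

theorem exists_perm (m : ℕ) (hm : 1 ≤ m) (a : ZMod (2 * m) → ℕ) (ha : IsPrimeCircle m a) :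
    ∃ c ∈ adm (S (2 * m)), F (2 * m) c = edges a := by
  have : NeZero (2 * m) := ⟨by omega⟩
  obtain ⟨⟨hmap, hinj, hsurj⟩, hpr⟩ := ha
  have h1 : ∀ i, 1 ≤ a i ∧ a i ≤ 2 * m := fun i => hmap (Set.mem_univ i)
  let e0 : ZMod (2 * m) → Fin (2 * m) := fun i => ⟨a i - 1, by have := h1 i; omega⟩
  have he0 : Function.Bijective e0 := by
    constructor
    · intro i j hij
      have h2 : a i - 1 = a j - 1 := congrArg Fin.val hij
      refine hinj (Set.mem_univ i) (Set.mem_univ j) ?_
      have := h1 i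
      have := h1 j
      omega
    · intro x
      obtain ⟨i, -, hi⟩ := hsurj (show (x : ℕ) + 1 ∈ Set.Icc 1 (2 * m) from
        ⟨by omega, by have := x.2; omega⟩)
      refine ⟨i, Fin.ext ?_⟩
      show a i - 1 = (x : ℕ)
      omega
  let e : ZMod (2 * m) ≃ Fin (2 * m) := Equiv.ofBijective e0 he0
  have he : ∀ i, ((e i : Fin (2 * m)) : ℕ) + 1 = a i := by
    intro i
    show a i - 1 + 1 = a i
    have := h1 i
    omega
  let c : Equiv.Perm (Fin (2 * m)) := (e.symm.trans (Equiv.addRight 1)).trans e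
  have hc : ∀ x, c x = e (e.symm x + 1) := fun x => rfl
  have hx : ∀ x : Fin (2 * m), (x : ℕ) + 1 = a (e.symm x) := by
    intro x
    rw [← he, Equiv.apply_symm_apply]
  have hcx : ∀ x : Fin (2 * m), ((c x : Fin (2 * m)) : ℕ) + 1 = a (e.symm x + 1) := by
    intro x
    rw [hc, he]
  refine ⟨c, ?_, ?_⟩
  · simp only [adm, S, mem_filter, mem_univ, true_and]
    intro x
    rw [hx, hcx]
    exact hpr _
  · ext z
    simp only [F, edges, Set.mem_range]
    constructor
    · rintro ⟨x, rfl⟩
      exact ⟨e.symm x, by rw [hx, hcx]⟩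
    · rintro ⟨i, rfl⟩
      exact ⟨e i, by rw [hx, hcx, Equiv.symm_apply_apply]⟩

theorem N_le (m : ℕ) (hm : 1 ≤ m) : N m ≤ (adm (S (2 * m))).card := by
  have hsub : {E : Set (Sym2 ℕ) | ∃ a : ZMod (2 * m) → ℕ, IsPrimeCircle m a ∧ E = edges a} ⊆
      F (2 * m) '' (adm (S (2 * m)) : Set (Equiv.Perm (Fin (2 * m)))) := by
    rintro E ⟨a, ha, rfl⟩
    obtain ⟨c, hc, hF⟩ := exists_perm m hm a ha
    exact ⟨c, by exact_mod_cast hc, hF⟩
  have hfin : (adm (S (2 * m)) : Set (Equiv.Perm (Fin (2 * m)))).Finite := Finset.finite_toSet _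
  calc N m ≤ (F (2 * m) '' (adm (S (2 * m)) : Set (Equiv.Perm (Fin (2 * m))))).ncard :=
        Set.ncard_le_ncard hsub (hfin.image _)
    _ ≤ (adm (S (2 * m)) : Set (Equiv.Perm (Fin (2 * m)))).ncard := Set.ncard_image_le hfin
    _ = _ := Set.ncard_coe_finset _

/-- the set counted by `N m` is finite -/
theorem finite (m : ℕ) (hm : 1 ≤ m) :
    {E : Set (Sym2 ℕ) | ∃ a : ZMod (2 * m) → ℕ, IsPrimeCircle m a ∧ E = edges a}.Finite := by
  refine Set.Finite.subset ((Finset.finite_toSet (adm (S (2 * m)))).image (F (2 * m))) ?_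
  rintro E ⟨a, ha, rfl⟩
  obtain ⟨c, hc, hF⟩ := exists_perm m hm a ha
  exact ⟨c, by exact_mod_cast hc, hF⟩

theorem card_S (n : ℕ) (x : Fin n) :
    (S n x).card + Nat.primeCounting ((x : ℕ) + 1) ≤ Nat.primeCounting (n + ((x : ℕ) + 1)) := by
  have hpc : ∀ k, Nat.primeCounting k = ((Finset.range (k + 1)).filter Nat.Prime).card := by
    intro k
    rw [Nat.primeCounting, Nat.primeCounting', Nat.count_eq_card_filter_range]
  have hinj : Function.Injective fun y : Fin n => (x : ℕ) + 1 + ((y : ℕ) + 1) := by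
    intro y z h
    refine Fin.ext ?_
    simp only at h
    omega
  rw [hpc, hpc, ← Finset.card_image_of_injective (S n x) hinj, ← Finset.card_union_of_disjoint]
  · refine Finset.card_le_card ?_
    intro p hp
    rw [mem_union, mem_image, mem_filter, mem_range] at hp
    rw [mem_filter, mem_range]
    rcases hp with ⟨y, hy, rfl⟩ | ⟨h1, h2⟩
    · rw [S, mem_filter] at hy
      exact ⟨by have := y.2; omega, hy.2⟩
    · exact ⟨by omega, h2⟩
  · rw [Finset.disjoint_left]
    intro p hp hq
    rw [mem_image] at hp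
    rw [mem_filter, mem_range] at hq
    obtain ⟨y, hy, rfl⟩ := hp
    omega

theorem tendsto_log_div : Tendsto (fun x : ℝ => Real.log x / x) atTop (𝓝 0) := by
  have := Real.isLittleO_log_id_atTop.tendsto_div_nhds_zero
  simpa using this

theorem tendsto_div_log : Tendsto (fun x : ℝ => x / Real.log x) atTop atTop := by
  have h2 : Tendsto (fun x : ℝ => Real.log x / x) atTop (𝓝[>] 0) := by
    rw [tendsto_nhdsWithin_iff]
    refine ⟨tendsto_log_div, ?_⟩
    filter_upwards [eventually_gt_atTop 1] with x hx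
    exact div_pos (Real.log_pos hx) (by linarith)
  have h3 := h2.inv_tendsto_nhdsGT_zero
  refine h3.congr fun x => ?_
  simp [inv_div]

theorem tendsto_err : Tendsto (fun d : ℕ => (1 + Real.log d) / d) atTop (𝓝 0) := by
  have h1 : Tendsto (fun x : ℝ => (1 + Real.log x) / x) atTop (𝓝 0) := by
    have := tendsto_inv_atTop_zero.add tendsto_log_div
    rw [add_zero] at this
    refine this.congr fun x => ?_
    rw [add_div, one_div]
  exact h1.comp tendsto_natCast_atTop_atTop

/-- For every `ε > 0` and all sufficiently large `m`, the number of prime circles of order `2m`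
is at most `((1 + ε) * 2m / (e * log (2m))) ^ (2m)`. -/
theorem result (ε : ℝ) (hε : 0 < ε) : ∃ m₀ : ℕ, ∀ m : ℕ, m₀ ≤ m →
    (N m : ℝ) ≤ ((1 + ε) * (2 * m) / (Real.exp 1 * Real.log (2 * m))) ^ (2 * m) := by
  set η : ℝ := min 1 (ε / 3) with hη
  have hη0 : 0 < η := by positivity
  have hη1 : η ≤ 1 := min_le_left _ _
  have hη2 : 3 * η ≤ ε := by
    have := min_le_right (1 : ℝ) (ε / 3)
    rw [← hη] at this
    linarith
  have hη3 : (1 + η) * (1 + η) ≤ 1 + ε := by nlinarith
  obtain ⟨x₀, hx₀⟩ := window_up η hη0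
  set D : ℕ → ℕ := fun n => ⌊(1 + η) * ((n : ℝ) / Real.log n)⌋₊ with hD
  have hDt : Tendsto D atTop atTop :=
    tendsto_nat_floor_atTop.comp ((tendsto_div_log.comp
      tendsto_natCast_atTop_atTop).const_mul_atTop (by linarith))
  have hl : 0 < Real.log (1 + η) := Real.log_pos (by linarith)
  have h1 : ∀ᶠ n : ℕ in atTop, (1 + Real.log (D n)) / (D n) ≤ Real.log (1 + η) :=
    ((tendsto_err.comp hDt).eventually (Iic_mem_nhds hl))
  have h2 : ∀ᶠ n : ℕ in atTop, 1 ≤ D n := hDt.eventually_ge_atTop 1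
  obtain ⟨n₁, hn₁⟩ := eventually_atTop.1 (h1.and (h2.and (eventually_ge_atTop (max 3 x₀))))
  refine ⟨n₁ + 1, fun m hm => ?_⟩
  obtain ⟨g1, g2, g3⟩ := hn₁ (2 * m) (by omega)
  set n : ℕ := 2 * m with hn
  have hnc : (2 * (m : ℝ)) = (n : ℝ) := by rw [hn]; push_cast; ring
  have hn3 : 3 ≤ n := (le_max_left _ _).trans g3
  have hnx : x₀ ≤ n := (le_max_right _ _).trans g3
  have hn3' : (3 : ℝ) ≤ n := by exact_mod_cast hn3
  have hn0 : (0 : ℝ) < n := by linarith
  have hlog : 0 < Real.log n := Real.log_pos (by linarith)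
  have hB0 : 0 < (1 + η) * ((n : ℝ) / Real.log n) := by positivity
  -- every row has at most `D n` admissible entries
  have hcard : ∀ x : Fin n, (S n x).card ≤ D n := by
    intro x
    rw [hD]
    refine Nat.le_floor ?_
    have k1 := card_S n x
    have k2 := hx₀ n hnx ((x : ℕ) + 1) (by have := x.2; omega)
    have k3 : ((S n x).card : ℝ) + Nat.primeCounting ((x : ℕ) + 1) ≤
        Nat.primeCounting (n + ((x : ℕ) + 1)) := by exact_mod_cast k1
    linarith
  have hsum : ∑ x : Fin n, Real.log ((S n x).card.factorial : ℝ) / (S n x).card ≤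
      n * gf (D n) := by
    calc ∑ x : Fin n, Real.log ((S n x).card.factorial : ℝ) / (S n x).card
        ≤ ∑ _x : Fin n, gf (D n) := Finset.sum_le_sum fun x _ => gf_mono (hcard x)
      _ = n * gf (D n) := by
        rw [Finset.sum_const, Finset.card_univ, Fintype.card_fin, nsmul_eq_mul]
  have hD1 : (1 : ℝ) ≤ D n := by exact_mod_cast g2
  have hDle : (D n : ℝ) ≤ (1 + η) * ((n : ℝ) / Real.log n) := Nat.floor_le hB0.le
  have hgf : gf (D n) ≤
      Real.log ((1 + η) * ((1 + η) * ((n : ℝ) / Real.log n)) / Real.exp 1) := by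
    have k1 := gf_up (D n) g2
    have k2 : Real.log (D n) ≤ Real.log ((1 + η) * ((n : ℝ) / Real.log n)) :=
      Real.log_le_log (by linarith) hDle
    rw [Real.log_div (by positivity) (Real.exp_pos 1).ne', Real.log_exp,
      Real.log_mul (by positivity) hB0.ne']
    linarith
  have hX : 0 < (1 + η) * ((1 + η) * ((n : ℝ) / Real.log n)) / Real.exp 1 := by positivity
  calc (N m : ℝ) ≤ ((adm (S n)).card : ℝ) := by exact_mod_cast N_le m (by omega)
    _ ≤ Real.exp (∑ x : Fin n, Real.log ((S n x).card.factorial : ℝ) / (S n x).card) :=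
        bregman (S n)
    _ ≤ Real.exp (n * Real.log ((1 + η) * ((1 + η) * ((n : ℝ) / Real.log n)) / Real.exp 1)) := by
        refine Real.exp_le_exp.2 (hsum.trans ?_)
        exact mul_le_mul_of_nonneg_left hgf hn0.le
    _ = ((1 + η) * ((1 + η) * ((n : ℝ) / Real.log n)) / Real.exp 1) ^ n := by
        rw [← Real.log_pow, Real.exp_log (by positivity)]
    _ ≤ ((1 + ε) * (2 * m) / (Real.exp 1 * Real.log (2 * m))) ^ n := by
        rw [hnc]
        refine pow_le_pow_left₀ hX.le ?_ n
        rw [show (1 + η) * ((1 + η) * ((n : ℝ) / Real.log n)) / Real.exp 1 =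
          ((1 + η) * (1 + η)) * (n / (Real.exp 1 * Real.log n)) by field_simp,
          mul_div_assoc]
        exact mul_le_mul_of_nonneg_right hη3 (by positivity)

end Pool.Agent.Results.MP_ec65ab_co.UpperBound
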